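import Pool.Agent.N822.OG.Stm

/-!
# Project OG: complete tripartite subgraphs (helper152)
-/

set_option autoImplicit false

namespace Pool.Agent.N152.OG

open SimpleGraph Filter Pool.Agent.N822.OG

theorem k3 : Pool.Agent.N822.OG.S_K3 := by
  classical
  intro T
  obtain ⟨N, hN⟩ := eventually_atTop.1
    (SimpleGraph.eventually_completeEquipartiteGraph_isContained_of_minDegree
      (ε := 1 / 12) (by norm_num) 2 T)
  refine ⟨max N 8, fun V _ G hcard hdeg => ?_⟩
  obtain ⟨n, hn⟩ : ∃ n, n = Fintype.card V := ⟨_, rfl⟩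
  rw [← hn] at hcard hdeg
  have hn8 : 8 ≤ n := (le_max_right _ _).trans hcard
  have e : V ≃ Fin n := hn ▸ Fintype.equivFin V
  obtain ⟨G', hG'⟩ : ∃ G' : SimpleGraph (Fin n), G' = G.comap e.symm := ⟨_, rfl⟩
  have hadj : ∀ i j, G'.Adj i j ↔ G.Adj (e.symm i) (e.symm j) := by
    intro i j
    rw [hG']
    rfl
  have hd : ∀ i, 2 * n / 3 ≤ G'.degree i := by
    intro i
    refine (hdeg (e.symm i)).trans (le_of_eq ?_)
    have h1 : (G'.neighborSet i).ncard = G'.degree i := by
      rw [Set.ncard_eq_toFinset_card', ← SimpleGraph.neighborFinset_def,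
        SimpleGraph.card_neighborFinset_eq_degree]
    rw [← h1]
    symm
    refine Set.ncard_congr (fun x _ => e.symm x) ?_ ?_ ?_
    · intro x hx
      exact (hadj i x).1 hx
    · intro x y _ _ h
      exact e.symm.injective h
    · intro y hy
      refine ⟨e y, ?_, e.symm_apply_apply y⟩
      show G'.Adj i (e y)
      rw [hadj, e.symm_apply_apply]
      exact hy
  have hne : Nonempty (Fin n) := ⟨⟨0, by omega⟩⟩
  have hmin : 2 * n / 3 ≤ G'.minDegree := SimpleGraph.le_minDegree_of_forall_le_degree _ _ hd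
  have hreal : (G'.minDegree : ℝ) ≥ (1 - 1 / (2 : ℕ) + 1 / 12) * n := by
    have h1 : 7 * n ≤ 12 * (2 * n / 3) := by omega
    have h2 : 7 * n ≤ 12 * G'.minDegree := h1.trans (Nat.mul_le_mul_left _ hmin)
    have h3 : (7 : ℝ) * n ≤ 12 * G'.minDegree := by exact_mod_cast h2
    push_cast
    linarith
  obtain ⟨f⟩ := hN n ((le_max_left _ _).trans hcard) hreal
  have hF : Function.Injective (fun x : Fin 3 × Fin T => e.symm (f x)) := by
    intro x y h
    exact f.injective (e.symm.injective h)
  refine ⟨fun i => Finset.univ.image fun j : Fin T => e.symm (f (i, j)), fun i => ?_, ?_⟩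
  · rw [Finset.card_image_of_injective, Finset.card_univ, Fintype.card_fin]
    intro j j' h
    have := hF (a₁ := (i, j)) (a₂ := (i, j')) h
    exact (Prod.ext_iff.1 this).2
  · intro i j hij x hx y hy
    rw [Finset.mem_image] at hx hy
    obtain ⟨a, -, rfl⟩ := hx
    obtain ⟨b, -, rfl⟩ := hy
    rw [← hadj]
    refine f.toHom.map_adj ?_
    rw [completeEquipartiteGraph_adj]
    exact hij

end Pool.Agent.N152.OG
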